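import Pool.Agent.H37.M7.Coarse

set_option autoImplicit false

/-!
# The coarse chain satisfies the hypotheses of the array theorem
-/

namespace H37.M7

open MeasureTheory Set Filter
open Pool.Agent.H66.M7 H37.Levy

universe u

/-! ### Telescoping -/

lemma tele (F : ℕ → ℝ) {i j J : ℕ} (hij : i ≤ j) (hj : j ≤ J) :
    F j - F i = ∑ m ∈ Finset.range J, if i ≤ m ∧ m < j then F (m + 1) - F m else 0 := by
  have h1 : (Finset.range J).filter (fun m => i ≤ m ∧ m < j) = Finset.Ico i j := by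
    ext m
    simp only [Finset.mem_filter, Finset.mem_range, Finset.mem_Ico]
    constructor
    · rintro ⟨-, h⟩; exact h
    · intro h; exact ⟨by omega, h⟩
  rw [← Finset.sum_filter, h1, Finset.sum_Ico_eq_sub _ hij, Finset.sum_range_sub,
    Finset.sum_range_sub]
  ring

/-- increments of a pair of germs: capacity, first and second moment -/
def Pr3 (R R' : ℂ → ℂ) (x : ℝ) : Prop :=
  0 ≤ rc R 1 - rc R' 1 ∧
  0 ≤ (rc R 3 - rc R' 3 - rc R' 1 * (rc R 1 - rc R' 1)) - 2 * x * (rc R' 2 - rc R 2) +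
    x ^ 2 * (rc R 1 - rc R' 1) ∧
  ((rc R' 2 - rc R 2) - x * (rc R 1 - rc R' 1)) ^ 2 ≤
    (rc R 1 - rc R' 1) * ((rc R 3 - rc R' 3 - rc R' 1 * (rc R 1 - rc R' 1)) -
      2 * x * (rc R' 2 - rc R 2) + x ^ 2 * (rc R 1 - rc R' 1))

/-- **Hypotheses for the coarse chain.** -/
structure CHyp {Ω : Type u} {m0 : MeasurableSpace Ω} (P : Measure Ω) (G : Filtration ℕ m0)
    (l a0 M al0 s ε C : ℝ) (q : ℕ → ℝ) (J : ℕ) (A : ℕ → Ω → ℂ → ℂ) (W : ℕ → Ω → ℝ)
    (Mt : ℕ → ℕ → Ω → ℝ) (g b : ℕ → Set Ω) (al : Ω → ℝ) (Cst : ℕ → ℕ → Set Ω) : Prop where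
  chn : Chn P G l a0 M al0 s ε q J A W Mt g b al
  C0 : 0 ≤ C
  mC : ∀ i j, i < j → MeasurableSet[G j] (Cst i j)
  hM : ∀ j ≤ J, ∀ i ≤ 4, ∀ ω ∈ g j, |Mt j i ω| ≤ C
  hbad : ∀ j < J, ∀ i ≤ 4, ∀ S : Set Ω, MeasurableSet[G j] S → S ⊆ b j →
    ∫ ω in S \ g (j + 1), |Mt (j + 1) i ω| ∂P ≤ C * P.real (S \ g (j + 1))
  hstep : ∀ i j, i < j → j ≤ J → ∀ ω, (∀ k, i ≤ k → k < j → ω ∈ b k) → ω ∈ g j →
    Pr3 (A i ω) (A j ω) (W i ω)

section

variable {Ω : Type u} {m0 : MeasurableSpace Ω} {P : Measure Ω} {G : Filtration ℕ m0}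
  {l a0 M al0 s ε C : ℝ} {q : ℕ → ℝ} {J : ℕ} {A : ℕ → Ω → ℂ → ℂ} {W : ℕ → Ω → ℝ}
  {Mt : ℕ → ℕ → Ω → ℝ} {g b : ℕ → Set Ω} {al : Ω → ℝ} {Cst : ℕ → ℕ → Set Ω}

lemma CHyp.cm (h : CHyp P G l a0 M al0 s ε C q J A W Mt g b al Cst) : CM G b Cst :=
  ⟨h.chn.mb, h.mC⟩

/-- the observables at the coarse indices -/
noncomputable def cM (J : ℕ) (b : ℕ → Set Ω) (Cst : ℕ → ℕ → Set Ω) (Mt : ℕ → ℕ → Ω → ℝ)
    (k i : ℕ) : Ω → ℝ := cs J b Cst (fun j => Mt j i) k

/-- the probability of a bad coarse step -/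
noncomputable def cq (P : Measure Ω) (C : ℝ) (J : ℕ) (b : ℕ → Set Ω) (Cst : ℕ → ℕ → Set Ω)
    (g : ℕ → Set Ω) (k : ℕ) : ℝ := 2 * C * P.real (cb J b Cst k \ cg J b Cst g (k + 1))

/-- a bad step ends at once -/
lemma now_bad (hbg : ∀ j, b j ⊆ g j) {k j : ℕ} {ω : Ω} (h : ω ∈ Now J b Cst k j)
    (h2 : ω ∉ g (j + 1)) : sg J b Cst (k + 1) ω = j + 1 := by
  by_contra h3
  have h4 : j + 1 < sg J b Cst (k + 1) ω := by
    have := h.2.2
    omega
  exact h2 (hbg _ (between h.1 (h.2.1.trans (Nat.le_succ j)) h4).1)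

lemma bad_eq (hbg : ∀ j, b j ⊆ g j) (k : ℕ) : cb J b Cst k \ cg J b Cst g (k + 1) =
    ⋃ j ∈ Finset.range J, Now J b Cst k j \ g (j + 1) := by
  ext ω
  simp only [Set.mem_sdiff, Set.mem_iUnion, Finset.mem_range, exists_prop]
  constructor
  · rintro ⟨h1, h2⟩
    have h3 := sg_lt h1
    have h4 := sg_le (J := J) (b := b) (Cst := Cst) (k := k + 1) (ω := ω)
    have h5 : sg J b Cst (k + 1) ω - 1 + 1 = sg J b Cst (k + 1) ω := by omega
    refine ⟨sg J b Cst (k + 1) ω - 1, by omega, ⟨h1, by omega, by omega⟩, ?_⟩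
    rw [h5]
    exact h2
  · rintro ⟨j, hj, h1, h2⟩
    refine ⟨h1.1, fun h3 => ?_⟩
    have h4 := now_bad hbg h1 h2
    change ω ∈ g (sg J b Cst (k + 1) ω) at h3
    rw [h4] at h3
    exact h2 h3

lemma bad_disj (hbg : ∀ j, b j ⊆ g j) (k : ℕ) :
    Set.PairwiseDisjoint (↑(Finset.range J)) fun j => Now J b Cst k j \ g (j + 1) := by
  intro i _ j _ hij
  rw [Function.onFun, Set.disjoint_left]
  rintro ω ⟨h1, h2⟩ ⟨h3, h4⟩
  have h5 := now_bad hbg h1 h2
  have h6 := now_bad hbg h3 h4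
  omega

lemma meas_bad (h : CHyp P G l a0 M al0 s ε C q J A W Mt g b al Cst) (k j : ℕ) :
    MeasurableSet (Now J b Cst k j \ g (j + 1)) :=
  (G.le _ _ (meas_Now h.cm k j)).diff (G.le _ _ (h.chn.mg (j + 1)))

lemma int_cM (h : CHyp P G l a0 M al0 s ε C q J A W Mt g b al Cst) {i : ℕ} (hi : i ≤ 4) (k : ℕ) :
    Integrable (cM J b Cst Mt k i) P := by
  have h1 : cM J b Cst Mt k i = fun ω => ∑ j ∈ Finset.range (J + 1),
      {ω | sg J b Cst k ω = j}.indicator (Mt j i) ω := by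
    funext ω
    rw [Finset.sum_eq_single (sg J b Cst k ω)]
    · rw [Set.indicator_of_mem (show ω ∈ {ω' | sg J b Cst k ω' = sg J b Cst k ω} from rfl)]
      rfl
    · intro j _ hj
      exact Set.indicator_of_notMem (fun h2 => hj h2.symm) _
    · intro h2
      refine absurd (Finset.mem_range.2 ?_) h2
      have := sg_le (J := J) (b := b) (Cst := Cst) (k := k) (ω := ω)
      omega
  rw [h1]
  refine integrable_finsetSum _ fun j hj => ?_
  refine (h.chn.iM j ?_ i hi).indicator (G.le _ _ (meas_sg h.cm k j))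
  have := Finset.mem_range.1 hj
  omega

/-- the martingale property -/
lemma mart_cM [IsProbabilityMeasure P]
    (h : CHyp P G l a0 M al0 s ε C q J A W Mt g b al Cst) {i : ℕ} (hi : i ≤ 4)
    (k : ℕ) {Y : Ω → ℝ} (hY : Measurable[cG J h.cm k] Y) (hY1 : ∀ ω, |Y ω| ≤ 1)
    (hY0 : ∀ ω ∉ cb J b Cst k, Y ω = 0) :
    ∫ ω, Y ω * cM J b Cst Mt (k + 1) i ω ∂P = ∫ ω, Y ω * cM J b Cst Mt k i ω ∂P := by
  have hYm : AEStronglyMeasurable Y P :=
    (hY.mono ((cG J h.cm).le k) le_rfl).stronglyMeasurable.aestronglyMeasurable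
  have hI : ∀ m, Integrable (fun ω => Y ω * cM J b Cst Mt m i ω) P := fun m =>
    Integrable.bdd_mul (c := 1) (int_cM h hi m) hYm (Eventually.of_forall hY1)
  rw [← sub_eq_zero, ← integral_sub (hI _) (hI _)]
  have h1 : ∀ ω, Y ω * cM J b Cst Mt (k + 1) i ω - Y ω * cM J b Cst Mt k i ω =
      ∑ j ∈ Finset.range J, ((Now J b Cst k j).indicator Y ω * Mt (j + 1) i ω -
        (Now J b Cst k j).indicator Y ω * Mt j i ω) := by
    intro ω
    by_cases hω : ω ∈ cb J b Cst k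
    · have h2 := tele (fun j => Mt j i ω) (sg_lt hω).le
        (sg_le (J := J) (b := b) (Cst := Cst) (k := k + 1) (ω := ω))
      rw [← mul_sub]
      change Y ω * (Mt (sg J b Cst (k + 1) ω) i ω - Mt (sg J b Cst k ω) i ω) = _
      rw [h2, Finset.mul_sum]
      refine Finset.sum_congr rfl fun j _ => ?_
      by_cases h3 : sg J b Cst k ω ≤ j ∧ j < sg J b Cst (k + 1) ω
      · rw [if_pos h3, Set.indicator_of_mem (show ω ∈ Now J b Cst k j from ⟨hω, h3⟩)]
        ring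
      · rw [if_neg h3, Set.indicator_of_notMem (fun h4 : ω ∈ Now J b Cst k j => h3 h4.2)]
        ring
    · rw [hY0 ω hω, Finset.sum_eq_zero]
      · ring
      · intro j _
        rw [Set.indicator_of_notMem (fun h4 : ω ∈ Now J b Cst k j => hω h4.1)]
        ring
  simp only [h1]
  have hYj : ∀ j, Measurable[G j] ((Now J b Cst k j).indicator Y) := fun j =>
    meas_test h.cm hY j
  have hYj1 : ∀ j ω, |(Now J b Cst k j).indicator Y ω| ≤ 1 := by
    intro j ω
    by_cases h2 : ω ∈ Now J b Cst k j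
    · rw [Set.indicator_of_mem h2]; exact hY1 ω
    · rw [Set.indicator_of_notMem h2, abs_zero]; exact zero_le_one
  have hIj : ∀ j < J, ∀ m ≤ J, Integrable (fun ω => (Now J b Cst k j).indicator Y ω * Mt m i ω) P :=
    fun j _ m hm => Integrable.bdd_mul (c := 1) (h.chn.iM m hm i hi)
      ((hYj j).mono (G.le j) le_rfl).stronglyMeasurable.aestronglyMeasurable
      (Eventually.of_forall (hYj1 j))
  rw [integral_finsetSum]
  · refine Finset.sum_eq_zero fun j hj => ?_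
    have hj' := Finset.mem_range.1 hj
    rw [integral_sub (hIj j hj' _ hj') (hIj j hj' _ hj'.le), sub_eq_zero]
    refine h.chn.mart j hj' i hi _ (hYj j) (hYj1 j) fun ω hω => ?_
    exact Set.indicator_of_notMem (fun h2 => hω (Now_b h2)) _
  · intro j hj
    have hj' := Finset.mem_range.1 hj
    exact (hIj j hj' _ hj').sub (hIj j hj' _ hj'.le)

/-- bad coarse steps -/
lemma bad_cM [IsProbabilityMeasure P]
    (h : CHyp P G l a0 M al0 s ε C q J A W Mt g b al Cst) {i : ℕ} (hi : i ≤ 4) (k : ℕ) :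
    ∫ ω in cb J b Cst k \ cg J b Cst g (k + 1),
      |cM J b Cst Mt (k + 1) i ω - cM J b Cst Mt k i ω| ∂P ≤ cq P C J b Cst g k := by
  set S := cb J b Cst k \ cg J b Cst g (k + 1) with hS
  have hbg := h.chn.bg
  have hSm : MeasurableSet S :=
    ((cG J h.cm).le _ _ (meas_cb h.cm k)).diff
      ((cG J h.cm).le _ _ (meas_cg h.cm h.chn.mg (k + 1)))
  have hI := fun m => int_cM h hi m
  have e1 : ∫ ω in S, |cM J b Cst Mt (k + 1) i ω| ∂P ≤ C * P.real S := by
    rw [hS, bad_eq hbg k, integral_biUnion_finset _ (fun j _ => meas_bad h k j)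
      (bad_disj hbg k) (fun j _ => (hI (k + 1)).abs.integrableOn),
      measureReal_biUnion_finset (bad_disj hbg k) (fun j _ => meas_bad h k j), Finset.mul_sum]
    refine Finset.sum_le_sum fun j hj => ?_
    have hj' := Finset.mem_range.1 hj
    have h2 : ∫ ω in Now J b Cst k j \ g (j + 1), |cM J b Cst Mt (k + 1) i ω| ∂P =
        ∫ ω in Now J b Cst k j \ g (j + 1), |Mt (j + 1) i ω| ∂P := by
      refine setIntegral_congr_fun (meas_bad h k j) fun ω hω => ?_
      change |Mt (sg J b Cst (k + 1) ω) i ω| = _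
      rw [now_bad hbg hω.1 hω.2]
    rw [h2]
    exact h.hbad j hj' i hi _ (meas_Now h.cm k j) Now_b
  have e2 : ∫ ω in S, |cM J b Cst Mt k i ω| ∂P ≤ C * P.real S := by
    calc ∫ ω in S, |cM J b Cst Mt k i ω| ∂P ≤ ∫ _ω in S, C ∂P := by
          refine setIntegral_mono_on (hI k).abs.integrableOn (integrable_const _).integrableOn hSm
            fun ω hω => ?_
          exact h.hM _ sg_le i hi ω (hbg _ hω.1.2)
      _ = C * P.real S := by
          rw [setIntegral_const, smul_eq_mul, mul_comm]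
  calc ∫ ω in S, |cM J b Cst Mt (k + 1) i ω - cM J b Cst Mt k i ω| ∂P
      ≤ ∫ ω in S, (|cM J b Cst Mt (k + 1) i ω| + |cM J b Cst Mt k i ω|) ∂P :=
        setIntegral_mono_on ((hI _).sub (hI _)).abs.integrableOn
          ((hI _).abs.add (hI _).abs).integrableOn hSm fun ω _ => abs_sub _ _
    _ = ∫ ω in S, |cM J b Cst Mt (k + 1) i ω| ∂P + ∫ ω in S, |cM J b Cst Mt k i ω| ∂P :=
        integral_add (hI _).abs.integrableOn (hI _).abs.integrableOn
    _ ≤ C * P.real S + C * P.real S := add_le_add e1 e2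
    _ = cq P C J b Cst g k := by unfold cq; ring

/-- the first bad step of the micro chain -/
def FB (J : ℕ) (g b : ℕ → Set Ω) : Set Ω := {ω | ∃ j < J, (∀ i ≤ j, ω ∈ b i) ∧ ω ∉ g (j + 1)}

/-- the probabilities of bad coarse steps are summable -/
lemma sum_cq [IsProbabilityMeasure P]
    (h : CHyp P G l a0 M al0 s ε C q J A W Mt g b al Cst) (N : ℕ) :
    ∑ k ∈ Finset.range N, cq P C J b Cst g k ≤ 2 * C * P.real (FB J g b) := by
  have hbg := h.chn.bg
  have hC := h.C0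
  unfold cq
  rw [← Finset.mul_sum, ← measureReal_biUnion_finset]
  · refine mul_le_mul_of_nonneg_left (measureReal_mono ?_) (by positivity)
    intro ω hω
    simp only [Set.mem_iUnion, Finset.mem_range, exists_prop] at hω
    obtain ⟨k, -, h1, h2⟩ := hω
    have h3 := sg_lt h1
    have h4 := sg_le (J := J) (b := b) (Cst := Cst) (k := k + 1) (ω := ω)
    have h5 : sg J b Cst (k + 1) ω - 1 + 1 = sg J b Cst (k + 1) ω := by omega
    refine ⟨sg J b Cst (k + 1) ω - 1, by omega, fun i hi => before h1 i (by omega), ?_⟩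
    rw [h5]
    exact h2
  · intro k _ m _ hkm
    have key : ∀ k m, k < m → Disjoint (cb J b Cst k \ cg J b Cst g (k + 1))
        (cb J b Cst m \ cg J b Cst g (m + 1)) := by
      intro k m h1
      rw [Set.disjoint_left]
      rintro ω ⟨-, h3⟩ ⟨h4, -⟩
      exact h3 (hbg _ (cb_anti h4 h1).2)
    rcases lt_or_gt_of_ne hkm with h1 | h1
    · exact key k m h1
    · exact (key m k h1).symm
  · intro k _
    exact ((cG J h.cm).le _ _ (meas_cb h.cm k)).diff
      ((cG J h.cm).le _ _ (meas_cg h.cm h.chn.mg (k + 1)))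

/-- **The coarse chain.** -/
theorem coarse [IsProbabilityMeasure P] (h : CHyp P G l a0 M al0 s ε C q J A W Mt g b al Cst)
    (N : ℕ) : Chn P (cG J h.cm) l a0 M al0 s ε (cq P C J b Cst g) N (cs J b Cst A)
      (cs J b Cst W) (cM J b Cst Mt) (cg J b Cst g) (cb J b Cst) al where
  eps0 := h.chn.eps0
  al_nonneg := h.chn.al_nonneg
  al_le := h.chn.al_le
  mal := meas_zero' h.cm h.chn.mal 0
  bg k := fun ω hω => h.chn.bg _ hω.2
  mg k := meas_cg h.cm h.chn.mg k
  mb k := meas_cb h.cm k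
  mW k := meas_cs h.cm h.chn.mW k
  mr k m := meas_cs (F := fun j ω => rc (A j ω) m) h.cm (fun j => h.chn.mr j m) k
  mkc k m := meas_cs (F := fun j ω => kc (A j ω) (W j ω) m) h.cm (fun j => h.chn.mkc j m) k
  mkap k u := meas_cs (F := fun j ω => kap (A j ω) (W j ω) u) h.cm (fun j => h.chn.mkap j u) k
  germ k _ ω hω := h.chn.germ _ sg_le ω hω
  bdW k _ ω hω := h.chn.bdW _ sg_le ω hω
  iM k _ i hi := int_cM h hi k
  mart k _ i hi Y hY hY1 hY0 := mart_cM h hi k hY hY1 hY0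
  obs k _ i hi ω hω := h.chn.obs _ sg_le i hi ω hω
  bad k _ i hi := bad_cM h hi k
  step := by
    rintro k _ ω ⟨h1, h2⟩
    have h3 := h.hstep _ _ (sg_lt h1) sg_le ω (fun m hm hm' => (between h1 hm hm').1) h2
    unfold Pr3 at h3
    unfold Pool.Agent.H66.M7.m2 Pool.Agent.H66.M7.m1 Pool.Agent.H66.M7.a3
      Pool.Agent.H66.M7.a2 Pool.Agent.H66.M7.a1 cs
    obtain ⟨h4, h5, h6⟩ := h3
    refine ⟨h4, ?_, ?_⟩
    · refine h5.trans (le_of_eq ?_)
      ring
    · refine h6.trans (le_of_eq ?_)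
      ring

end

end H37.M7
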