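import Pool.Agent.H66.M7.Array

set_option autoImplicit false

/-!
# The coarse chain: indices

A chain which is looked at only at the indices `sg 0 = 0`, `sg (k + 1)` = first `j > sg k` with
`J ≤ j` or `ω ∉ b j` or `ω ∈ Cst (sg k) j`.
-/

namespace H37.M7

open MeasureTheory Set

universe u

variable {Ω : Type u}

section idx

variable (J : ℕ) (b : ℕ → Set Ω) (Cst : ℕ → ℕ → Set Ω)

/-- the step which started at `i` ends at `j` -/
def Stc (i j : ℕ) (ω : Ω) : Prop := J ≤ j ∨ ω ∉ b j ∨ ω ∈ Cst i j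

lemma ex_nx {i : ℕ} (hi : i < J) (ω : Ω) : ∃ j, i < j ∧ Stc J b Cst i j ω := ⟨J, hi, Or.inl le_rfl⟩

open Classical in
/-- the end of the step which starts at `i` -/
noncomputable def nx (i : ℕ) (ω : Ω) : ℕ :=
  if h : i < J then (if ω ∈ b i then Nat.find (ex_nx J b Cst h ω) else i) else i

/-- the coarse indices -/
noncomputable def sg : ℕ → Ω → ℕ
  | 0, _ => 0
  | k + 1, ω => nx J b Cst (sg k ω) ω

/-- the coarse chain goes on at `k` -/
def cb (k : ℕ) : Set Ω := {ω | sg J b Cst k ω < J ∧ ω ∈ b (sg J b Cst k ω)}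

/-- the coarse state `k` is good -/
def cg (g : ℕ → Set Ω) (k : ℕ) : Set Ω := {ω | ω ∈ g (sg J b Cst k ω)}

/-- a sequence at the coarse indices -/
noncomputable def cs {β : Type*} (F : ℕ → Ω → β) (k : ℕ) (ω : Ω) : β := F (sg J b Cst k ω) ω

end idx

section path

variable {J : ℕ} {b : ℕ → Set Ω} {Cst : ℕ → ℕ → Set Ω} {i j k m : ℕ} {ω : Ω}

lemma nx_off (h : ¬ (i < J ∧ ω ∈ b i)) : nx J b Cst i ω = i := by
  unfold nx
  by_cases h1 : i < J
  · rw [dif_pos h1, if_neg fun h2 => h ⟨h1, h2⟩]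
  · rw [dif_neg h1]

open Classical in
lemma nx_on (h1 : i < J) (h2 : ω ∈ b i) : nx J b Cst i ω = j ↔
    i < j ∧ Stc J b Cst i j ω ∧ ∀ m, i < m → m < j → ¬ Stc J b Cst i m ω := by
  unfold nx
  rw [dif_pos h1, if_pos h2, Nat.find_eq_iff]
  constructor
  · rintro ⟨⟨h3, h4⟩, h5⟩
    exact ⟨h3, h4, fun m hm hm' h6 => h5 m hm' ⟨hm, h6⟩⟩
  · rintro ⟨h3, h4, h5⟩
    exact ⟨⟨h3, h4⟩, fun m hm h6 => h5 m h6.1 hm h6.2⟩

lemma nx_spec (h1 : i < J) (h2 : ω ∈ b i) : i < nx J b Cst i ω ∧
    Stc J b Cst i (nx J b Cst i ω) ω ∧ ∀ m, i < m → m < nx J b Cst i ω → ¬ Stc J b Cst i m ω :=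
  (nx_on h1 h2).1 rfl

lemma le_nx : i ≤ nx J b Cst i ω := by
  by_cases h : i < J ∧ ω ∈ b i
  · exact (nx_spec h.1 h.2).1.le
  · rw [nx_off h]

lemma nx_le (hi : i ≤ J) : nx J b Cst i ω ≤ J := by
  by_cases h : i < J ∧ ω ∈ b i
  · obtain ⟨h1, h2, h3⟩ := nx_spec (Cst := Cst) h.1 h.2
    by_contra h4
    exact h3 J h.1 (not_le.1 h4) (Or.inl le_rfl)
  · rw [nx_off h]; exact hi

lemma sg_zero : sg J b Cst 0 ω = 0 := rfl

lemma sg_succ : sg J b Cst (k + 1) ω = nx J b Cst (sg J b Cst k ω) ω := rfl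

lemma sg_le_succ : sg J b Cst k ω ≤ sg J b Cst (k + 1) ω := le_nx

lemma sg_mono (h : k ≤ m) : sg J b Cst k ω ≤ sg J b Cst m ω := by
  induction m, h using Nat.le_induction with
  | base => exact le_rfl
  | succ m _ ih => exact ih.trans sg_le_succ

lemma sg_le : sg J b Cst k ω ≤ J := by
  induction k with
  | zero => exact Nat.zero_le _
  | succ k ih => exact nx_le ih

lemma sg_lt (h : ω ∈ cb J b Cst k) : sg J b Cst k ω < sg J b Cst (k + 1) ω :=
  (nx_spec h.1 h.2).1

lemma sg_off (h : ω ∉ cb J b Cst k) (hk : k ≤ m) : sg J b Cst m ω = sg J b Cst k ω := by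
  induction m, hk using Nat.le_induction with
  | base => rfl
  | succ m _ ih =>
    rw [sg_succ, ih]
    exact nx_off h

lemma cb_anti (h : ω ∈ cb J b Cst m) (hk : k ≤ m) : ω ∈ cb J b Cst k := by
  by_contra h1
  have h2 := sg_off h1 hk
  refine h1 ?_
  change sg J b Cst k ω < J ∧ ω ∈ b (sg J b Cst k ω)
  rw [← h2]
  exact h

/-- between two coarse indices -/
lemma between (h : ω ∈ cb J b Cst k) (h1 : sg J b Cst k ω ≤ j) (h2 : j < sg J b Cst (k + 1) ω) :
    ω ∈ b j ∧ (sg J b Cst k ω < j → ω ∉ Cst (sg J b Cst k ω) j) := by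
  rcases h1.lt_or_eq with h3 | h3
  · have h4 := (nx_spec (Cst := Cst) h.1 h.2).2.2 j h3 h2
    unfold Stc at h4
    push Not at h4
    exact ⟨h4.2.1, fun _ => h4.2.2⟩
  · rw [← h3]
    exact ⟨h.2, fun h4 => absurd h4 (lt_irrefl _)⟩

/-- why a step ends -/
lemma why (h : ω ∈ cb J b Cst k) :
    Stc J b Cst (sg J b Cst k ω) (sg J b Cst (k + 1) ω) ω := (nx_spec h.1 h.2).2.1

/-- the chain goes on before a coarse index -/
lemma before (h : ω ∈ cb J b Cst k) : ∀ j < sg J b Cst (k + 1) ω, ω ∈ b j := by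
  induction k with
  | zero => exact fun j hj => (between h (Nat.zero_le _) hj).1
  | succ k ih =>
    intro j hj
    rcases lt_or_ge j (sg J b Cst (k + 1) ω) with h1 | h1
    · exact ih (cb_anti h (Nat.le_succ k)) j h1
    · exact (between h h1 hj).1

/-- The coarse chain ends at `J` or because the state is not in `b`. -/
lemma end_cases (h : ω ∉ cb J b Cst k) :
    sg J b Cst k ω = J ∨ ω ∉ b (sg J b Cst k ω) := by
  by_contra h1
  push Not at h1
  exact h ⟨lt_of_le_of_ne sg_le h1.1, h1.2⟩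

/-- number of steps -/
lemma le_sg (h : ∀ m < k, ω ∈ cb J b Cst m) : k ≤ sg J b Cst k ω := by
  induction k with
  | zero => exact Nat.zero_le _
  | succ k ih =>
    have h1 := ih fun m hm => h m (by omega)
    have h2 := sg_lt (h k (Nat.lt_succ_self k))
    omega

end path

/-! ### Measurability -/

section meas

variable {m0 : MeasurableSpace Ω} {G : Filtration ℕ m0} {J : ℕ} {b : ℕ → Set Ω}
  {Cst : ℕ → ℕ → Set Ω}

/-- measurability of the conditions -/
structure CM (G : Filtration ℕ m0) (b : ℕ → Set Ω) (Cst : ℕ → ℕ → Set Ω) : Prop where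
  mb : ∀ j, MeasurableSet[G j] (b j)
  mC : ∀ i j, i < j → MeasurableSet[G j] (Cst i j)

lemma meas_Stc (hm : CM G b Cst) {i j : ℕ} (hij : i < j) :
    MeasurableSet[G j] {ω | Stc J b Cst i j ω} := by
  by_cases h : J ≤ j
  · have h1 : {ω | Stc J b Cst i j ω} = Set.univ := by
      ext ω; simp [Stc, h]
    rw [h1]
    exact @MeasurableSet.univ _ (G j)
  · have h1 : {ω | Stc J b Cst i j ω} = (b j)ᶜ ∪ Cst i j := by
      ext ω
      simp only [Stc, h, false_or, Set.mem_union, Set.mem_compl_iff, Set.mem_ofPred_eq]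
    rw [h1]
    exact (hm.mb j).compl.union (hm.mC i j hij)

lemma meas_nx (hm : CM G b Cst) (i j : ℕ) : MeasurableSet[G j] {ω | nx J b Cst i ω = j} := by
  rcases lt_trichotomy i j with hij | hij | hij
  · by_cases hi : i < J
    · have h1 : {ω | nx J b Cst i ω = j} = b i ∩ ({ω | Stc J b Cst i j ω} ∩
          ⋂ m ∈ Finset.Ioo i j, {ω | Stc J b Cst i m ω}ᶜ) := by
        ext ω
        simp only [Set.mem_ofPred_eq, Set.mem_inter_iff, Set.mem_iInter, Finset.mem_Ioo,
          Set.mem_compl_iff]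
        constructor
        · intro h
          by_cases hb : ω ∈ b i
          · obtain ⟨-, h3, h4⟩ := (nx_on hi hb).1 h
            exact ⟨hb, h3, fun m hm => h4 m hm.1 hm.2⟩
          · rw [nx_off fun h5 => hb h5.2] at h
            omega
        · rintro ⟨h2, h3, h4⟩
          exact (nx_on hi h2).2 ⟨hij, h3, fun m hm hm' => h4 m ⟨hm, hm'⟩⟩
      rw [h1]
      refine (G.mono hij.le _ (hm.mb i)).inter ((meas_Stc hm hij).inter ?_)
      refine MeasurableSet.biInter (Finset.countable_toSet _) fun m hm' => ?_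
      obtain ⟨h2, h3⟩ := Finset.mem_Ioo.1 hm'
      exact (G.mono h3.le _ (meas_Stc hm h2)).compl
    · have h1 : {ω | nx J b Cst i ω = j} = ∅ := by
        ext ω
        simp only [Set.mem_ofPred_eq, Set.mem_empty_iff_false, iff_false]
        rw [nx_off fun h => hi h.1]
        omega
      rw [h1]
      exact @MeasurableSet.empty _ (G j)
  · subst hij
    by_cases hi : i < J
    · have h1 : {ω | nx J b Cst i ω = i} = (b i)ᶜ := by
        ext ω
        simp only [Set.mem_ofPred_eq, Set.mem_compl_iff]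
        constructor
        · intro h hb
          have := (nx_spec (Cst := Cst) hi hb).1
          omega
        · intro h
          exact nx_off fun h2 => h h2.2
      rw [h1]
      exact (hm.mb i).compl
    · have h1 : {ω | nx J b Cst i ω = i} = Set.univ := by
        ext ω
        simp only [Set.mem_ofPred_eq, Set.mem_univ, iff_true]
        exact nx_off fun h => hi h.1
      rw [h1]
      exact @MeasurableSet.univ _ (G i)
  · have h1 : {ω | nx J b Cst i ω = j} = ∅ := by
      ext ω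
      simp only [Set.mem_ofPred_eq, Set.mem_empty_iff_false, iff_false]
      have := le_nx (J := J) (b := b) (Cst := Cst) (i := i) (ω := ω)
      omega
    rw [h1]
    exact @MeasurableSet.empty _ (G j)

lemma meas_sg (hm : CM G b Cst) (k j : ℕ) : MeasurableSet[G j] {ω | sg J b Cst k ω = j} := by
  induction k generalizing j with
  | zero =>
    by_cases h : j = 0
    · have h1 : {ω : Ω | sg J b Cst 0 ω = j} = Set.univ := by
        ext ω; simp [sg_zero, h]
      rw [h1]; exact @MeasurableSet.univ _ (G j)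
    · have h1 : {ω : Ω | sg J b Cst 0 ω = j} = ∅ := by
        ext ω
        simp only [sg_zero, Set.mem_ofPred_eq, Set.mem_empty_iff_false, iff_false]
        omega
      rw [h1]; exact @MeasurableSet.empty _ (G j)
  | succ k ih =>
    have h1 : {ω | sg J b Cst (k + 1) ω = j} = ⋃ i ∈ Finset.range (j + 1),
        ({ω | sg J b Cst k ω = i} ∩ {ω | nx J b Cst i ω = j}) := by
      ext ω
      simp only [Set.mem_ofPred_eq, Set.mem_iUnion, Finset.mem_range, Set.mem_inter_iff,
        exists_prop]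
      constructor
      · intro h
        refine ⟨sg J b Cst k ω, ?_, rfl, h⟩
        have := sg_le_succ (J := J) (b := b) (Cst := Cst) (k := k) (ω := ω)
        omega
      · rintro ⟨i, -, h2, h3⟩
        rw [sg_succ, h2, h3]
    rw [h1]
    refine MeasurableSet.biUnion (Finset.countable_toSet _) fun i hi => ?_
    have hi' : i ≤ j := by
      have := Finset.mem_range.1 hi
      omega
    exact (G.mono hi' _ (ih i)).inter (meas_nx hm i j)

/-- sigma algebra at a discrete stopping time -/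
@[instance_reducible]
def stopAlg (G : Filtration ℕ m0) (τ : Ω → ℕ) (hτ : ∀ j, MeasurableSet[G j] {ω | τ ω = j}) :
    MeasurableSpace Ω where
  MeasurableSet' S := ∀ j, MeasurableSet[G j] (S ∩ {ω | τ ω = j})
  measurableSet_empty j := by
    rw [Set.empty_inter]
    exact @MeasurableSet.empty _ (G j)
  measurableSet_compl S hS j := by
    have h1 : Sᶜ ∩ {ω | τ ω = j} = {ω | τ ω = j} \ (S ∩ {ω | τ ω = j}) := by
      ext ω
      simp only [Set.mem_inter_iff, Set.mem_compl_iff, Set.mem_sdiff]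
      tauto
    rw [h1]
    exact (hτ j).diff (hS j)
  measurableSet_iUnion f hf j := by
    rw [Set.iUnion_inter]
    exact MeasurableSet.iUnion fun i => hf i j

lemma stopAlg_iff {τ : Ω → ℕ} {hτ : ∀ j, MeasurableSet[G j] {ω | τ ω = j}} {S : Set Ω} :
    MeasurableSet[stopAlg G τ hτ] S ↔ ∀ j, MeasurableSet[G j] (S ∩ {ω | τ ω = j}) := Iff.rfl

/-- the filtration of the coarse chain -/
noncomputable def cG (J : ℕ) (hm : CM G b Cst) : Filtration ℕ m0 where
  seq k := stopAlg G (sg J b Cst k) (meas_sg hm k)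
  mono' := by
    intro k m hkm S hS
    rw [stopAlg_iff] at hS ⊢
    intro j
    have h1 : S ∩ {ω | sg J b Cst m ω = j} = (⋃ i ∈ Finset.range (j + 1),
        (S ∩ {ω | sg J b Cst k ω = i})) ∩ {ω | sg J b Cst m ω = j} := by
      ext ω
      simp only [Set.mem_ofPred_eq, Set.mem_iUnion, Finset.mem_range, Set.mem_inter_iff,
        exists_prop]
      constructor
      · rintro ⟨h2, h3⟩
        refine ⟨⟨sg J b Cst k ω, ?_, h2, rfl⟩, h3⟩
        have := sg_mono (J := J) (b := b) (Cst := Cst) (ω := ω) hkm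
        omega
      · rintro ⟨⟨i, -, h2, -⟩, h3⟩
        exact ⟨h2, h3⟩
    rw [h1]
    refine MeasurableSet.inter (MeasurableSet.biUnion (Finset.countable_toSet _) fun i hi => ?_)
      (meas_sg hm m j)
    have hi' : i ≤ j := by
      have := Finset.mem_range.1 hi
      omega
    exact G.mono hi' _ (hS i)
  le' := by
    intro k S hS
    rw [stopAlg_iff] at hS
    have h1 : S = ⋃ j, (S ∩ {ω | sg J b Cst k ω = j}) := by
      ext ω
      simp
    rw [h1]
    exact MeasurableSet.iUnion fun j => G.le j _ (hS j)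

lemma cG_iff {hm : CM G b Cst} {k : ℕ} {S : Set Ω} :
    MeasurableSet[cG J hm k] S ↔ ∀ j, MeasurableSet[G j] (S ∩ {ω | sg J b Cst k ω = j}) := Iff.rfl

/-- sets of the first sigma algebra -/
lemma meas_zero (hm : CM G b Cst) {S : Set Ω} (hS : MeasurableSet[G 0] S) (k : ℕ) :
    MeasurableSet[cG J hm k] S :=
  cG_iff.2 fun j => (G.mono (Nat.zero_le j) _ hS).inter (meas_sg hm k j)

lemma meas_zero' (hm : CM G b Cst) {β : Type*} [MeasurableSpace β] {f : Ω → β}
    (hf : Measurable[G 0] f) (k : ℕ) : Measurable[cG J hm k] f :=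
  fun _ hT => meas_zero hm (hf hT) k

/-- sequences at the coarse indices -/
lemma meas_cs (hm : CM G b Cst) {β : Type*} [MeasurableSpace β] {F : ℕ → Ω → β}
    (hF : ∀ j, Measurable[G j] (F j)) (k : ℕ) : Measurable[cG J hm k] (cs J b Cst F k) := by
  intro T hT
  rw [cG_iff]
  intro j
  have h1 : cs J b Cst F k ⁻¹' T ∩ {ω | sg J b Cst k ω = j} =
      F j ⁻¹' T ∩ {ω | sg J b Cst k ω = j} := by
    ext ω
    simp only [Set.mem_inter_iff, Set.mem_preimage, Set.mem_ofPred_eq]
    constructor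
    · rintro ⟨h2, h3⟩
      refine ⟨?_, h3⟩
      rw [← h3]; exact h2
    · rintro ⟨h2, h3⟩
      refine ⟨?_, h3⟩
      rw [← h3] at h2; exact h2
  rw [h1]
  exact (hF j hT).inter (meas_sg hm k j)

lemma meas_cset (hm : CM G b Cst) {S : ℕ → Set Ω} (hS : ∀ j, MeasurableSet[G j] (S j)) (k : ℕ) :
    MeasurableSet[cG J hm k] {ω | ω ∈ S (sg J b Cst k ω)} := by
  rw [cG_iff]
  intro j
  have h1 : {ω | ω ∈ S (sg J b Cst k ω)} ∩ {ω | sg J b Cst k ω = j} =
      S j ∩ {ω | sg J b Cst k ω = j} := by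
    ext ω
    simp only [Set.mem_inter_iff, Set.mem_ofPred_eq]
    constructor
    · rintro ⟨h2, h3⟩
      refine ⟨?_, h3⟩
      rw [← h3]; exact h2
    · rintro ⟨h2, h3⟩
      refine ⟨?_, h3⟩
      rw [← h3] at h2; exact h2
  rw [h1]
  exact (hS j).inter (meas_sg hm k j)

lemma meas_cg (hm : CM G b Cst) {g : ℕ → Set Ω} (hg : ∀ j, MeasurableSet[G j] (g j)) (k : ℕ) :
    MeasurableSet[cG J hm k] (cg J b Cst g k) := meas_cset hm hg k

lemma meas_cb (hm : CM G b Cst) (k : ℕ) : MeasurableSet[cG J hm k] (cb J b Cst k) := by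
  refine meas_cset (S := fun j => {ω : Ω | j < J ∧ ω ∈ b j}) hm (fun j => ?_) k
  by_cases h : j < J
  · have h2 : {ω : Ω | j < J ∧ ω ∈ b j} = b j := by ext ω; simp [h]
    rw [h2]; exact hm.mb j
  · have h2 : {ω : Ω | j < J ∧ ω ∈ b j} = ∅ := by ext ω; simp [h]
    rw [h2]; exact @MeasurableSet.empty _ (G j)

/-- a coarse step which is being made at `j` -/
def Now (J : ℕ) (b : ℕ → Set Ω) (Cst : ℕ → ℕ → Set Ω) (k j : ℕ) : Set Ω :=
  {ω | ω ∈ cb J b Cst k ∧ sg J b Cst k ω ≤ j ∧ j < sg J b Cst (k + 1) ω}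

lemma Now_b {k j : ℕ} : Now J b Cst k j ⊆ b j := fun _ h => (between h.1 h.2.1 h.2.2).1

lemma meas_le (hm : CM G b Cst) (k j : ℕ) : MeasurableSet[G j] {ω | sg J b Cst k ω ≤ j} := by
  have h1 : {ω | sg J b Cst k ω ≤ j} = ⋃ i ∈ Finset.range (j + 1), {ω | sg J b Cst k ω = i} := by
    ext ω
    simp only [Set.mem_ofPred_eq, Set.mem_iUnion, Finset.mem_range, exists_prop]
    constructor
    · intro h; exact ⟨_, by omega, rfl⟩
    · rintro ⟨i, h2, h3⟩; omega
  rw [h1]
  refine MeasurableSet.biUnion (Finset.countable_toSet _) fun i hi => ?_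
  have hi' : i ≤ j := by
    have := Finset.mem_range.1 hi
    omega
  exact G.mono hi' _ (meas_sg hm k i)

/-- sets of the sigma algebra `k` restricted to `sg k ≤ j` -/
lemma meas_inter (hm : CM G b Cst) {k j : ℕ} {S : Set Ω} (hS : MeasurableSet[cG J hm k] S) :
    MeasurableSet[G j] (S ∩ {ω | sg J b Cst k ω ≤ j}) := by
  have h1 : S ∩ {ω | sg J b Cst k ω ≤ j} = ⋃ i ∈ Finset.range (j + 1),
      (S ∩ {ω | sg J b Cst k ω = i}) := by
    ext ω
    simp only [Set.mem_ofPred_eq, Set.mem_iUnion, Finset.mem_range, Set.mem_inter_iff,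
      exists_prop]
    constructor
    · rintro ⟨h2, h3⟩
      exact ⟨_, by omega, h2, rfl⟩
    · rintro ⟨i, h2, h3, h4⟩
      exact ⟨h3, by omega⟩
  rw [h1]
  refine MeasurableSet.biUnion (Finset.countable_toSet _) fun i hi => ?_
  have hi' : i ≤ j := by
    have := Finset.mem_range.1 hi
    omega
  exact G.mono hi' _ (cG_iff.1 hS i)

lemma meas_Now (hm : CM G b Cst) (k j : ℕ) : MeasurableSet[G j] (Now J b Cst k j) := by
  have h1 : Now J b Cst k j = (cb J b Cst k ∩ {ω | sg J b Cst k ω ≤ j}) ∩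
      {ω | sg J b Cst (k + 1) ω ≤ j}ᶜ := by
    ext ω
    simp only [Now, Set.mem_ofPred_eq, Set.mem_inter_iff, Set.mem_compl_iff, not_le]
    tauto
  rw [h1]
  exact (meas_inter hm (meas_cb hm k)).inter (meas_le hm (k + 1) j).compl

lemma meas_test (hm : CM G b Cst) {k : ℕ} {Y : Ω → ℝ} (hY : Measurable[cG J hm k] Y) (j : ℕ) :
    Measurable[G j] ((Now J b Cst k j).indicator Y) := by
  intro T hT
  have h1 : (Now J b Cst k j).indicator Y ⁻¹' T =
      (Now J b Cst k j ∩ (Y ⁻¹' T ∩ {ω | sg J b Cst k ω ≤ j})) ∪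
        ((Now J b Cst k j)ᶜ ∩ (fun _ : Ω => (0 : ℝ)) ⁻¹' T) := by
    ext ω
    simp only [Set.mem_preimage, Set.mem_union, Set.mem_inter_iff, Set.mem_compl_iff,
      Set.mem_ofPred_eq]
    by_cases h : ω ∈ Now J b Cst k j
    · rw [Set.indicator_of_mem h]
      have := h.2.1
      tauto
    · rw [Set.indicator_of_notMem h]
      tauto
  rw [h1]
  refine ((meas_Now hm k j).inter (meas_inter hm (hY hT))).union
    ((meas_Now hm k j).compl.inter ?_)
  exact @measurable_const _ _ _ (G j) (0 : ℝ) T hT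

end meas

end H37.M7
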