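import Pool.Agent.H37.M7.Coarse2

set_option autoImplicit false

/-!
# The coarse chain: small steps, the array, number of steps
-/

namespace H37.M7

open MeasureTheory Set Filter
open Pool.Agent.H66.M7 H37.Levy

universe u

/-- The first sigma algebra. -/
lemma cG_zero {Ω : Type u} {m0 : MeasurableSpace Ω} {G : Filtration ℕ m0} {J : ℕ}
    {b : ℕ → Set Ω} {Cst : ℕ → ℕ → Set Ω} (hm : CM G b Cst) : cG J hm 0 = G 0 := by
  refine le_antisymm (fun S hS => ?_) (fun S hS => meas_zero hm hS 0)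
  have h1 := cG_iff.1 hS 0
  have h2 : S ∩ {ω | sg J b Cst 0 ω = 0} = S := by
    ext ω
    simp [sg_zero]
  rw [h2] at h1
  exact h1

/-! ### Small steps -/

section small

variable {Ω : Type u} {A : ℕ → Ω → ℂ → ℂ} {W : ℕ → Ω → ℝ} {g b : ℕ → Set Ω} {al : Ω → ℝ}
  {Cst : ℕ → ℕ → Set Ω} {J : ℕ} {δ : ℝ}

/-- the step `j` of the chain is small -/
def Small1 (A : ℕ → Ω → ℂ → ℂ) (W : ℕ → Ω → ℝ) (al : Ω → ℝ) (δ : ℝ) (i j : ℕ) (ω : Ω) : Prop :=
  |dr W al j ω - dr W al i ω| ≤ δ ∧ cp A al j ω - cp A al i ω ≤ δ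

/-- Steps are small if the stopped steps are small for all levels. -/
lemma small_of_Lg {j : ℕ} {ω : Ω}
    (h : ∀ T0 M0, ω ∉ Lg (ws A W al g b T0 M0) (ts A W al g b T0 M0) δ j)
    (hb : ∀ i ≤ j, ω ∈ b i) (hg : ω ∈ g (j + 1)) : Small1 A W al δ j (j + 1) ω := by
  have h1 := h (∑ i ∈ Finset.range (j + 1), |cp A al i ω|)
    (∑ i ∈ Finset.range (j + 1), |dr W al i ω|)
  have h2 : ω ∈ Stp A W al g b (∑ i ∈ Finset.range (j + 1), |cp A al i ω|)
      (∑ i ∈ Finset.range (j + 1), |dr W al i ω|) j := by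
    refine ⟨fun i hi => ⟨hb i hi, ?_, ?_⟩, hg⟩
    · exact Finset.single_le_sum (f := fun i => |dr W al i ω|) (fun _ _ => abs_nonneg _)
        (Finset.mem_range.2 (by omega))
    · exact (le_abs_self _).trans (Finset.single_le_sum (f := fun i => |cp A al i ω|)
        (fun _ _ => abs_nonneg _) (Finset.mem_range.2 (by omega)))
  unfold Lg at h1
  rw [Set.mem_ofPred_eq, ws_succ, ts_succ, Set.indicator_of_mem h2, Set.indicator_of_mem h2] at h1
  push Not at h1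
  refine ⟨?_, ?_⟩
  · have e1 : dr W al (j + 1) ω - dr W al j ω = al ω * (W (j + 1) ω - W j ω) := by
      unfold dr; ring
    rw [e1]; exact h1.1
  · have e1 : cp A al (j + 1) ω - cp A al j ω =
        al ω ^ 2 * (rc (A j ω) 1 - rc (A (j + 1) ω) 1) / 2 := by
      unfold cp; ring
    rw [e1]; exact h1.2

/-- coarse steps are small -/
lemma coarse_small (hδ : 0 ≤ δ)
    (hs : ∀ j < J, ∀ ω, (∀ i ≤ j, ω ∈ b i) → ω ∈ g (j + 1) → Small1 A W al δ j (j + 1) ω)
    (hC : ∀ i j ω, i < j → ω ∉ Cst i j → Small1 A W al δ i j ω) {k : ℕ} {ω : Ω}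
    (h1 : ω ∈ cb J b Cst k) (h2 : ω ∈ cg J b Cst g (k + 1)) :
    Small1 (cs J b Cst A) (cs J b Cst W) al (2 * δ) k (k + 1) ω := by
  have h3 := sg_lt h1
  have h4 := sg_le (J := J) (b := b) (Cst := Cst) (k := k + 1) (ω := ω)
  obtain ⟨j, hj⟩ : ∃ j, sg J b Cst (k + 1) ω = j + 1 := ⟨sg J b Cst (k + 1) ω - 1, by omega⟩
  change ω ∈ g (sg J b Cst (k + 1) ω) at h2
  change |dr W al (sg J b Cst (k + 1) ω) ω - dr W al (sg J b Cst k ω) ω| ≤ 2 * δ ∧
    cp A al (sg J b Cst (k + 1) ω) ω - cp A al (sg J b Cst k ω) ω ≤ 2 * δ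
  rw [hj] at h2 h3 h4 ⊢
  obtain ⟨e1, e2⟩ := hs j (by omega) ω (fun i hi => before h1 i (by omega)) h2
  rcases (Nat.lt_succ_iff.1 h3).lt_or_eq with h5 | h5
  · have h6 := (between h1 h5.le (by omega)).2 h5
    obtain ⟨e3, e4⟩ := hC _ _ ω h5 h6
    constructor
    · rw [abs_le] at e1 e3 ⊢
      constructor <;> linarith
    · linarith
  · rw [h5]
    constructor
    · linarith
    · linarith

/-- no large coarse steps -/
lemma coarse_Lg (hδ : 0 ≤ δ)
    (hs : ∀ j < J, ∀ ω, (∀ i ≤ j, ω ∈ b i) → ω ∈ g (j + 1) → Small1 A W al δ j (j + 1) ω)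
    (hC : ∀ i j ω, i < j → ω ∉ Cst i j → Small1 A W al δ i j ω) (T0 M0 : ℝ) (k : ℕ) (ω : Ω) :
    ω ∉ Lg (ws (cs J b Cst A) (cs J b Cst W) al (cg J b Cst g) (cb J b Cst) T0 M0)
      (ts (cs J b Cst A) (cs J b Cst W) al (cg J b Cst g) (cb J b Cst) T0 M0) (2 * δ) k := by
  unfold Lg
  rw [Set.mem_ofPred_eq, ws_succ, ts_succ]
  by_cases h : ω ∈ Stp (cs J b Cst A) (cs J b Cst W) al (cg J b Cst g) (cb J b Cst) T0 M0 k
  · rw [Set.indicator_of_mem h, Set.indicator_of_mem h]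
    obtain ⟨h1, h2⟩ := coarse_small hδ hs hC (On_b h.1) h.2
    push Not
    refine ⟨?_, ?_⟩
    · have e1 : dr (cs J b Cst W) al (k + 1) ω - dr (cs J b Cst W) al k ω =
          al ω * (cs J b Cst W (k + 1) ω - cs J b Cst W k ω) := by
        unfold dr; ring
      rw [← e1]; exact h1
    · have e1 : cp (cs J b Cst A) al (k + 1) ω - cp (cs J b Cst A) al k ω =
          al ω ^ 2 * (rc (cs J b Cst A k ω) 1 - rc (cs J b Cst A (k + 1) ω) 1) / 2 := by
        unfold cp; ring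
      rw [← e1]; exact h2
  · rw [Set.indicator_of_notMem h, Set.indicator_of_notMem h, abs_zero]
    push Not
    exact ⟨by linarith, by linarith⟩

/-- If two consecutive steps are made, the first one has ended because of `Cst`. -/
lemma made_C {T0 M0 : ℝ} {k : ℕ} {ω : Ω}
    (h1 : ω ∈ Stp (cs J b Cst A) (cs J b Cst W) al (cg J b Cst g) (cb J b Cst) T0 M0 k)
    (h2 : ω ∈ Stp (cs J b Cst A) (cs J b Cst W) al (cg J b Cst g) (cb J b Cst) T0 M0 (k + 1)) :
    ω ∈ Cst (sg J b Cst k ω) (sg J b Cst (k + 1) ω) := by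
  have h3 := why (On_b h1.1)
  have h4 := On_b h2.1
  rcases h3 with h5 | h5 | h5
  · exact absurd h4.1 (not_lt.2 h5)
  · exact absurd h4.2 h5
  · exact h5

end small

/-! ### Arrays -/

section arr

variable {Ω : Type u} {m0 : MeasurableSpace Ω} {P : Measure Ω} {G : Filtration ℕ m0}

/-- sequences with small steps are arrays -/
lemma raw_arr {w t : ℕ → Ω → ℝ} {c T0 M0 C δ : ℝ} {a b : ℕ → ℝ} {J : ℕ}
    (h : Raw w t G P c T0 M0 C a b J) (hδ : 0 ≤ δ) (hδ1 : δ ≤ 1)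
    (hL : ∀ j < J, ∀ ω, ω ∉ Lg w t δ j) : Arr w t G P c T0 M0 δ a b J := by
  have hs : ∀ j < J, ∀ ω, |w (j + 1) ω - w j ω| ≤ δ ∧ t (j + 1) ω - t j ω ≤ δ := by
    intro j hj ω
    have h1 := hL j hj ω
    unfold Lg at h1
    rw [Set.mem_ofPred_eq] at h1
    push Not at h1
    exact h1
  have hb : ∀ j ≤ J, ∀ ω, |w j ω| ≤ M0 + 1 ∧ t j ω ≤ T0 + 1 := by
    intro j
    induction j with
    | zero =>
      intro _ ω
      rw [h.w0, h.t0, abs_zero]
      have := h.M00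
      have := h.T00
      exact ⟨by linarith, by linarith⟩
    | succ j ih =>
      intro hj ω
      obtain ⟨h1, h2⟩ := hs j hj ω
      by_cases h3 : w (j + 1) ω ≠ w j ω ∨ t (j + 1) ω ≠ t j ω
      · obtain ⟨h4, h5⟩ := h.act j hj ω h3
        constructor
        · have h6 := abs_add_le (w j ω) (w (j + 1) ω - w j ω)
          rw [add_sub_cancel] at h6
          linarith
        · linarith
      · push Not at h3
        rw [h3.1, h3.2]
        exact ih (Nat.le_of_succ_le hj) ω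
  exact
    { c0 := h.c0
      T00 := h.T00
      M00 := h.M00
      δ0 := hδ
      δ1 := hδ1
      mw := h.mw
      mt := h.mt
      w0 := h.w0
      t0 := h.t0
      bw := fun j hj ω => (hb j hj ω).1
      bt := fun j hj ω => (hb j hj ω).2
      dw := fun j hj ω => (hs j hj ω).1
      dt0 := h.dt0
      dt := fun j hj ω => (hs j hj ω).2
      e1 := h.e1
      e2 := h.e2 }

/-- number of steps of an array which are not small -/
lemma count12 [IsProbabilityMeasure P] {w t : ℕ → Ω → ℝ} {c T0 M0 δ δ' : ℝ} {a b : ℕ → ℝ}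
    {J : ℕ} (h : Arr w t G P c T0 M0 δ' a b J) (hδ : 0 < δ) (hδ1 : δ ≤ 1) {N1 : ℕ}
    (hN : 0 < N1) :
    P.real {ω | N1 ≤ ((Finset.range J).filter fun k =>
        δ ≤ |w (k + 1) ω - w k ω| ∨ δ ≤ t (k + 1) ω - t k ω).card} ≤
      ((1 + c) * (T0 + 1) + eps a b J) / (δ ^ 2 * N1) := by
  set F : Ω → ℝ := fun ω => ∑ k ∈ Finset.range J,
    ((w (k + 1) ω - w k ω) ^ 2 + (t (k + 1) ω - t k ω)) with hF
  have hI : ∀ k ∈ Finset.range J, Integrable
      (fun ω => (w (k + 1) ω - w k ω) ^ 2 + (t (k + 1) ω - t k ω)) P := fun k hk =>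
    (h.idw2 (Finset.mem_range.1 hk)).add (h.idt (Finset.mem_range.1 hk))
  have hFI : Integrable F P := integrable_finsetSum _ hI
  have hk0 : ∀ k ∈ Finset.range J, ∀ ω,
      0 ≤ (w (k + 1) ω - w k ω) ^ 2 + (t (k + 1) ω - t k ω) := fun k hk ω =>
    add_nonneg (sq_nonneg _) (h.dt0 k (Finset.mem_range.1 hk) ω)
  have hF0 : 0 ≤ᵐ[P] F := Eventually.of_forall fun ω =>
    Finset.sum_nonneg fun k hk => hk0 k hk ω
  have h1 := mul_meas_ge_le_integral_of_nonneg hF0 hFI (δ ^ 2 * N1)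
  have h2 : ∫ ω, F ω ∂P ≤ (1 + c) * (T0 + 1) + eps a b J := by
    rw [hF, integral_finsetSum _ hI]
    exact h.total
  have hN1 : (0 : ℝ) < N1 := by exact_mod_cast hN
  have h3 : {ω | N1 ≤ ((Finset.range J).filter fun k =>
        δ ≤ |w (k + 1) ω - w k ω| ∨ δ ≤ t (k + 1) ω - t k ω).card} ⊆
      {ω | δ ^ 2 * N1 ≤ F ω} := by
    intro ω hω
    set S := (Finset.range J).filter fun k =>
        δ ≤ |w (k + 1) ω - w k ω| ∨ δ ≤ t (k + 1) ω - t k ω with hS
    have h4 : (N1 : ℝ) ≤ S.card := by exact_mod_cast hω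
    have h5 : ∑ k ∈ S, δ ^ 2 ≤ ∑ k ∈ S, ((w (k + 1) ω - w k ω) ^ 2 + (t (k + 1) ω - t k ω)) := by
      refine Finset.sum_le_sum fun k hk => ?_
      obtain ⟨hk1, hk2⟩ := Finset.mem_filter.1 hk
      have h6 := h.dt0 k (Finset.mem_range.1 hk1) ω
      rcases hk2 with h7 | h7
      · have h8 : δ ^ 2 ≤ (w (k + 1) ω - w k ω) ^ 2 := by
          rw [← sq_abs (w (k + 1) ω - w k ω)]
          exact pow_le_pow_left₀ hδ.le h7 2
        linarith
      · have h8 : δ ^ 2 ≤ δ := by nlinarith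
        have h9 := sq_nonneg (w (k + 1) ω - w k ω)
        linarith
    have h6 : ∑ k ∈ S, ((w (k + 1) ω - w k ω) ^ 2 + (t (k + 1) ω - t k ω)) ≤ F ω :=
      Finset.sum_le_sum_of_subset_of_nonneg (Finset.filter_subset _ _)
        fun k hk _ => hk0 k hk ω
    rw [Finset.sum_const, nsmul_eq_mul] at h5
    change δ ^ 2 * N1 ≤ F ω
    have h7 : δ ^ 2 * N1 ≤ S.card * δ ^ 2 := by
      rw [mul_comm]
      exact mul_le_mul_of_nonneg_right h4 (sq_nonneg δ)
    linarith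
  have h4 : P.real {ω | N1 ≤ ((Finset.range J).filter fun k =>
        δ ≤ |w (k + 1) ω - w k ω| ∨ δ ≤ t (k + 1) ω - t k ω).card} ≤
      P.real {ω | δ ^ 2 * N1 ≤ F ω} := measureReal_mono h3
  rw [le_div_iff₀ (by positivity), mul_comm]
  refine (mul_le_mul_of_nonneg_left h4 (by positivity)).trans (le_trans ?_ h2)
  exact h1

end arr

/-! ### The array of the coarse chain -/

/-- the total error -/
noncomputable def TE (Cn s ε η C p : ℝ) (N : ℕ) : ℝ :=
  Cn / s ^ 4 * (2 * ε * N + 2 * C * p) + N * η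

/-- **The driving function of the coarse chain is nearly Brownian.** -/
theorem coarse_array {l a0 M al0 : ℝ} (hl : 0 < l) (ha : 0 ≤ a0) (hM : 0 ≤ M) (hal : 0 < al0) :
    ∃ K : ℝ, 0 < K ∧ ∀ η : ℝ, 0 < η → ∃ Cn : ℝ, 0 ≤ Cn ∧ ∃ s0 : ℝ, 0 < s0 ∧ s0 ≤ 1 ∧
      5 * s0 ≤ l / 4 ∧
      ∀ s : ℝ, 0 < s → s ≤ s0 → ∀ (Ω : Type u) (m0 : MeasurableSpace Ω) (P : Measure Ω)
        (_ : IsProbabilityMeasure P) (G : Filtration ℕ m0) (ε C T0 M0 δ : ℝ) (q : ℕ → ℝ) (J N : ℕ)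
        (A : ℕ → Ω → ℂ → ℂ) (W : ℕ → Ω → ℝ) (Mt : ℕ → ℕ → Ω → ℝ) (g b : ℕ → Set Ω)
        (al : Ω → ℝ) (Cst : ℕ → ℕ → Set Ω)
        (h : CHyp P G l a0 M al0 s ε C q J A W Mt g b al Cst), 0 ≤ T0 → 0 ≤ M0 →
        0 < δ → δ ≤ 1 / 4 →
        (∀ j < J, ∀ ω, (∀ i ≤ j, ω ∈ b i) → ω ∈ g (j + 1) → Small1 A W al δ j (j + 1) ω) →
        (∀ i j ω, i < j → ω ∉ Cst i j → Small1 A W al δ i j ω) →
        Arr (ws (cs J b Cst A) (cs J b Cst W) al (cg J b Cst g) (cb J b Cst) T0 M0)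
          (ts (cs J b Cst A) (cs J b Cst W) al (cg J b Cst g) (cb J b Cst) T0 M0)
          (cG J h.cm) P 6 T0 M0 (2 * δ)
          (fun k => K * dl Cn s ε η (cq P C J b Cst g) k)
          (fun k => K * dl Cn s ε η (cq P C J b Cst g) k) N ∧
        eps (fun k => K * dl Cn s ε η (cq P C J b Cst g) k)
          (fun k => K * dl Cn s ε η (cq P C J b Cst g) k) N ≤
          2 * K * TE Cn s ε η C (P.real (FB J g b)) N ∧
        ∫ ω, ∑ k ∈ Finset.range N,
          qs (cs J b Cst A) (cs J b Cst W) al (cg J b Cst g) (cb J b Cst) T0 M0 k ω ∂P ≤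
          112 * δ * (T0 + 1) + K * TE Cn s ε η C (P.real (FB J g b)) N := by
  obtain ⟨K, hK, H⟩ := array.{u} hl ha hM hal
  refine ⟨K, hK, fun η hη => ?_⟩
  obtain ⟨Cn, hCn, s0, hs0, hs01, hs0l, H⟩ := H η hη
  refine ⟨Cn, hCn, s0, hs0, hs01, hs0l, ?_⟩
  intro s hs hss Ω m0 P hP G ε C T0 M0 δ q J N A W Mt g b al Cst h hT0 hM0 hδ hδ1 hsm hC
  obtain ⟨h1, h2⟩ := H s hs hss Ω m0 P hP (cG J h.cm) ε T0 M0 (cq P C J b Cst g) N _ _ _ _ _ al
    (coarse h N) hT0 hM0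
  have hLg := fun k ω => coarse_Lg (J := J) hδ.le hsm hC T0 M0 k ω
  have h3 := raw_arr h1 (by linarith : (0 : ℝ) ≤ 2 * δ) (by linarith) fun k _ ω => hLg k ω
  have hsum : ∑ k ∈ Finset.range N, dl Cn s ε η (cq P C J b Cst g) k ≤
      TE Cn s ε η C (P.real (FB J g b)) N := by
    unfold dl TE
    rw [Finset.sum_add_distrib, Finset.sum_const, Finset.card_range, nsmul_eq_mul,
      ← Finset.mul_sum, Finset.sum_add_distrib, Finset.sum_const, Finset.card_range, nsmul_eq_mul]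
    have h4 := sum_cq h N
    have h5 : 0 ≤ Cn / s ^ 4 := by positivity
    have h6 : (N : ℝ) * (2 * ε) + ∑ k ∈ Finset.range N, cq P C J b Cst g k ≤
        2 * ε * N + 2 * C * P.real (FB J g b) := by linarith
    have h7 := mul_le_mul_of_nonneg_left h6 h5
    linarith
  refine ⟨h3, ?_, ?_⟩
  · unfold eps
    rw [Finset.sum_add_distrib, ← Finset.mul_sum]
    have h4 := mul_le_mul_of_nonneg_left hsum hK.le
    linarith
  · have h4 := h2 (2 * δ) (by linarith) (by linarith)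
    have h5 : LARGE (ws (cs J b Cst A) (cs J b Cst W) al (cg J b Cst g) (cb J b Cst) T0 M0)
        (ts (cs J b Cst A) (cs J b Cst W) al (cg J b Cst g) (cb J b Cst) T0 M0) (2 * δ) N = ∅ := by
      ext ω
      simp only [LARGE, Set.mem_ofPred_eq, Set.mem_empty_iff_false, iff_false]
      rintro ⟨j, -, hj⟩
      exact hLg j ω hj
    rw [h5, Set.compl_empty, measureReal_empty, Measure.restrict_univ, add_zero] at h4
    have h6 := mul_le_mul_of_nonneg_left hsum hK.le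
    linarith

/-! ### The stopping rule with tips -/

section tips

variable {Ω : Type u} {m0 : MeasurableSpace Ω} {P : Measure Ω} {G : Filtration ℕ m0}
  {A : ℕ → Ω → ℂ → ℂ} {W : ℕ → Ω → ℝ} {al : Ω → ℝ} {tip : ℕ → Ω → ℂ} {δ : ℝ}

/-- the stopping rule: the driving function, the capacity or the tip has moved by `δ` -/
def CD (A : ℕ → Ω → ℂ → ℂ) (W : ℕ → Ω → ℝ) (al : Ω → ℝ) (tip : ℕ → Ω → ℂ) (δ : ℝ) (i j : ℕ) :
    Set Ω :=
  {ω | δ ≤ |dr W al j ω - dr W al i ω| ∨ δ ≤ cp A al j ω - cp A al i ω ∨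
    δ ≤ dist (tip i ω) (tip j ω)}

lemma CD_small {i j : ℕ} {ω : Ω} (h : ω ∉ CD A W al tip δ i j) : Small1 A W al δ i j ω := by
  unfold CD at h
  rw [Set.mem_ofPred_eq] at h
  push Not at h
  exact ⟨h.1.le, h.2.1.le⟩

lemma CD_tip {i j : ℕ} {ω : Ω} (h : ω ∉ CD A W al tip δ i j) : dist (tip i ω) (tip j ω) < δ := by
  unfold CD at h
  rw [Set.mem_ofPred_eq] at h
  push Not at h
  exact h.2.2

lemma meas_CD {l a0 M al0 s ε : ℝ} {q : ℕ → ℝ} {J : ℕ} {Mt : ℕ → ℕ → Ω → ℝ} {g b : ℕ → Set Ω}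
    (h : Chn P G l a0 M al0 s ε q J A W Mt g b al) (ht : ∀ j, Measurable[G j] (tip j)) {i j : ℕ}
    (hij : i < j) : MeasurableSet[G j] (CD A W al tip δ i j) := by
  have h1 : Measurable[G j] fun ω => |dr W al j ω - dr W al i ω| :=
    (continuous_abs.measurable (α := ℝ)).comp
      ((h.meas_dr j).sub ((h.meas_dr i).mono (G.mono hij.le) le_rfl))
  have h2 : Measurable[G j] fun ω => cp A al j ω - cp A al i ω :=
    (h.meas_cp j).sub ((h.meas_cp i).mono (G.mono hij.le) le_rfl)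
  have h3 : Measurable[G j] fun ω => dist (tip i ω) (tip j ω) :=
    measurable_dist.comp (((ht i).mono (G.mono hij.le) le_rfl).prodMk (ht j))
  have e1 : CD A W al tip δ i j = (fun ω => |dr W al j ω - dr W al i ω|) ⁻¹' Set.Ici δ ∪
      ((fun ω => cp A al j ω - cp A al i ω) ⁻¹' Set.Ici δ ∪
        (fun ω => dist (tip i ω) (tip j ω)) ⁻¹' Set.Ici δ) := rfl
  rw [e1]
  exact (h1 measurableSet_Ici).union ((h2 measurableSet_Ici).union (h3 measurableSet_Ici))

/-- All steps made: many steps of one of the two kinds. -/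
lemma many_steps {g b : ℕ → Set Ω} {J N N1 N3 : ℕ} {T0 M0 : ℝ} {ω : Ω} (hbg : ∀ j, b j ⊆ g j)
    (hN : N1 + N3 ≤ N)
    (h : ∀ k ≤ N, ω ∈ Stp (cs J b (CD A W al tip δ) A) (cs J b (CD A W al tip δ) W) al
      (cg J b (CD A W al tip δ) g) (cb J b (CD A W al tip δ)) T0 M0 k) :
    (N1 ≤ ((Finset.range N).filter fun k =>
      δ ≤ |ws (cs J b (CD A W al tip δ) A) (cs J b (CD A W al tip δ) W) al
        (cg J b (CD A W al tip δ) g) (cb J b (CD A W al tip δ)) T0 M0 (k + 1) ω -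
        ws (cs J b (CD A W al tip δ) A) (cs J b (CD A W al tip δ) W) al
        (cg J b (CD A W al tip δ) g) (cb J b (CD A W al tip δ)) T0 M0 k ω| ∨
      δ ≤ ts (cs J b (CD A W al tip δ) A) (cs J b (CD A W al tip δ) W) al
        (cg J b (CD A W al tip δ) g) (cb J b (CD A W al tip δ)) T0 M0 (k + 1) ω -
        ts (cs J b (CD A W al tip δ) A) (cs J b (CD A W al tip δ) W) al
        (cg J b (CD A W al tip δ) g) (cb J b (CD A W al tip δ)) T0 M0 k ω).card) ∨
    (N3 ≤ ((Finset.range N).filter fun k =>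
      δ ≤ dist (tip (sg J b (CD A W al tip δ) k ω) ω)
        (tip (sg J b (CD A W al tip δ) (k + 1) ω) ω)).card) := by
  set C := CD A W al tip δ with hC
  set w := ws (cs J b C A) (cs J b C W) al (cg J b C g) (cb J b C) T0 M0 with hw
  set t := ts (cs J b C A) (cs J b C W) al (cg J b C g) (cb J b C) T0 M0 with ht
  set S1 := (Finset.range N).filter fun k =>
    δ ≤ |w (k + 1) ω - w k ω| ∨ δ ≤ t (k + 1) ω - t k ω with hS1
  set S3 := (Finset.range N).filter fun k =>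
    δ ≤ dist (tip (sg J b C k ω) ω) (tip (sg J b C (k + 1) ω) ω) with hS3
  have hbg' : ∀ k, cb J b C k ⊆ cg J b C g k := fun k ω hω => hbg _ hω.2
  have h1 : Finset.range N ⊆ S1 ∪ S3 := by
    intro k hk
    have hk' := Finset.mem_range.1 hk
    have h2 := made_C (h k hk'.le) (h (k + 1) hk')
    rw [Finset.mem_union, hS1, hS3, Finset.mem_filter, Finset.mem_filter]
    have h3 := ws_of_On hbg' (h k hk'.le).1
    have h4 := ws_of_On hbg' (h (k + 1) hk').1
    rw [← hw, ← ht] at h3 h4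
    rw [h3.1, h3.2, h4.1, h4.2]
    change δ ≤ |dr W al (sg J b C (k + 1) ω) ω - dr W al (sg J b C k ω) ω| ∨
      δ ≤ cp A al (sg J b C (k + 1) ω) ω - cp A al (sg J b C k ω) ω ∨ _ at h2
    rcases h2 with h5 | h5 | h5
    · exact Or.inl ⟨hk, Or.inl h5⟩
    · exact Or.inl ⟨hk, Or.inr h5⟩
    · exact Or.inr ⟨hk, h5⟩
  have h2 := (Finset.card_le_card h1).trans (Finset.card_union_le _ _)
  rw [Finset.card_range] at h2
  by_contra h3
  push Not at h3
  omega

end tips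

end H37.M7
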