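import Pool.Agent.H81.Q1.Curve

/-!
# Monotone reparametrisations do not change a curve
-/

set_option autoImplicit false
open Set Topology MeasureTheory
open scoped unitInterval
open Pool.Agent.H81.Q1

namespace H37.M7

/-- the strictly increasing perturbation of a monotone map of the unit interval -/
noncomputable def pert (h : I → I) (θ : I) (t : I) : I :=
  ⟨(1 - (θ : ℝ)) * h t + θ * t, by
    have h1 := (h t).2.1
    have h2 := (h t).2.2
    have h3 := t.2.1
    have h4 := t.2.2
    have h5 := θ.2.1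
    have h6 := θ.2.2
    constructor
    · nlinarith
    · nlinarith⟩

lemma pert_strictMono {h : I → I} (hm : Monotone h) {θ : I} (hθ : 0 < (θ : ℝ)) :
    StrictMono (pert h θ) := by
  intro s t hst
  rw [← Subtype.coe_lt_coe]
  show (1 - (θ : ℝ)) * h s + θ * s < (1 - (θ : ℝ)) * h t + θ * t
  have h1 : (h s : ℝ) ≤ h t := hm hst.le
  have h2 : (s : ℝ) < t := hst
  have h3 : 0 ≤ 1 - (θ : ℝ) := by linarith [θ.2.2]
  nlinarith [mul_le_mul_of_nonneg_left h1 h3]

lemma pert_continuous {h : I → I} (hc : Continuous h) (θ : I) : Continuous (pert h θ) := by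
  unfold pert
  refine Continuous.subtype_mk ?_ _
  fun_prop

lemma pert_surjective {h : I → I} (hc : Continuous h) (h0 : h 0 = 0) (h1 : h 1 = 1) (θ : I) :
    Function.Surjective (pert h θ) := by
  have e0 : pert h θ 0 = 0 := by
    apply Subtype.ext
    show (1 - (θ : ℝ)) * h 0 + θ * ((0 : I) : ℝ) = ((0 : I) : ℝ)
    rw [h0]
    simp
  have e1 : pert h θ 1 = 1 := by
    apply Subtype.ext
    show (1 - (θ : ℝ)) * h 1 + θ * ((1 : I) : ℝ) = ((1 : I) : ℝ)
    rw [h1]
    simp
  intro y
  have hiv := intermediate_value_univ (0 : I) (1 : I) (pert_continuous hc θ)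
  rw [e0, e1] at hiv
  exact hiv ⟨y.2.1, y.2.2⟩

/-- **monotone reparametrisation** -/
theorem mk_comp (g : C(I, ℂ)) (h : C(I, I)) (hm : Monotone h) (h0 : h 0 = 0) (h1 : h 1 = 1) :
    Curve.mk ⟨g.comp h⟩ = Curve.mk ⟨g⟩ := by
  rw [← dist_le_zero, Curve.dist_mk]
  refine le_of_forall_pos_le_add fun ε hε => ?_
  rw [zero_add]
  have huc : UniformContinuous g := CompactSpace.uniformContinuous_of_continuous g.continuous
  rw [Metric.uniformContinuous_iff] at huc
  obtain ⟨δ, hδ, hδ'⟩ := huc ε hε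
  set θ : I := ⟨min (δ / 2) 1, by positivity, min_le_right _ _⟩ with hθ
  have hθ0 : 0 < (θ : ℝ) := by
    show 0 < min (δ / 2) 1
    positivity
  have hθδ : (θ : ℝ) < δ := by
    show min (δ / 2) 1 < δ
    exact (min_le_left _ _).trans_lt (by linarith)
  set u : Rep := StrictMono.orderIsoOfSurjective (pert h θ) (pert_strictMono hm hθ0)
    (pert_surjective h.continuous h0 h1 θ) with hu
  refine (ciInf_le (bdd_below _ _) (OrderIso.refl I, u)).trans ?_
  unfold supd
  refine ciSup_le fun t => ?_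
  have hut : u t = pert h θ t := rfl
  show dist (g (h t)) (g (u t)) ≤ ε
  refine (hδ' ?_).le
  rw [hut, Subtype.dist_eq, Real.dist_eq]
  show |(h t : ℝ) - ((1 - (θ : ℝ)) * h t + θ * t)| < δ
  have e1 : (h t : ℝ) - ((1 - (θ : ℝ)) * h t + θ * t) = θ * ((h t : ℝ) - t) := by ring
  rw [e1, abs_mul, abs_of_pos hθ0]
  have e2 : |(h t : ℝ) - t| ≤ 1 := by
    rw [abs_le]
    have a1 := (h t).2.1
    have a2 := (h t).2.2
    have a3 := t.2.1
    have a4 := t.2.2
    constructor <;> linarith
  calc (θ : ℝ) * |(h t : ℝ) - t| ≤ θ * 1 := mul_le_mul_of_nonneg_left e2 hθ0.le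
    _ = θ := mul_one _
    _ < δ := hθδ

end H37.M7
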