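import Mathlib

/-!
# Convergence together
-/

set_option autoImplicit false
open Set Topology MeasureTheory Filter ProbabilityTheory

namespace H37.M7

variable {X : Type*} [PseudoMetricSpace X] [MeasurableSpace X] [OpensMeasurableSpace X]

omit [OpensMeasurableSpace X] in
/-- integrals of a bounded Lipschitz function against two random elements which are close -/
lemma integral_close {Ω : Type*} {mΩ : MeasurableSpace Ω} {P : Measure Ω} [IsProbabilityMeasure P]
    {Y Z : Ω → X} (hY : AEMeasurable Y P) (hZ : AEMeasurable Z P) {f : X → ℝ} {L M : ℝ}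
    (hf : Measurable f) (hL0 : 0 ≤ L) (hL : ∀ x y, |f x - f y| ≤ L * dist x y)
    (hM : ∀ x, |f x| ≤ M) {r : ℝ} (hr : 0 ≤ r) :
    |∫ ω, f (Y ω) ∂P - ∫ ω, f (Z ω) ∂P| ≤ L * r + 2 * M * P.real {ω | r < dist (Y ω) (Z ω)} := by
  have hiY : Integrable (fun ω => f (Y ω)) P :=
    Integrable.of_bound (hf.comp_aemeasurable hY).aestronglyMeasurable M
      (Eventually.of_forall fun ω => hM _)
  have hiZ : Integrable (fun ω => f (Z ω)) P :=
    Integrable.of_bound (hf.comp_aemeasurable hZ).aestronglyMeasurable M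
      (Eventually.of_forall fun ω => hM _)
  rw [← integral_sub hiY hiZ]
  set B0 : Set Ω := {ω | r < dist (Y ω) (Z ω)} with hB0
  set B : Set Ω := toMeasurable P B0 with hB
  have hBm : MeasurableSet B := measurableSet_toMeasurable _ _
  have hBr : P.real B = P.real B0 := by
    rw [Measure.real, Measure.real, hB, measure_toMeasurable]
  have hne : Nonempty Ω := by
    by_contra h
    rw [not_nonempty_iff] at h
    have := Measure.eq_zero_of_isEmpty P
    exact IsProbabilityMeasure.ne_zero P this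
  obtain ⟨ω0⟩ := hne
  have hM0 : 0 ≤ M := (abs_nonneg _).trans (hM (Y ω0))
  have hbound : ∀ ω, ‖f (Y ω) - f (Z ω)‖ ≤ L * r + B.indicator (fun _ => 2 * M) ω := by
    intro ω
    rw [Real.norm_eq_abs]
    by_cases hω : ω ∈ B
    · rw [indicator_of_mem hω]
      have h1 := abs_sub (f (Y ω)) (f (Z ω))
      have h2 := hM (Y ω)
      have h3 := hM (Z ω)
      have h4 : 0 ≤ L * r := mul_nonneg hL0 hr
      linarith
    · rw [indicator_of_notMem hω, add_zero]
      have h1 : dist (Y ω) (Z ω) ≤ r := not_lt.1 fun h => hω (subset_toMeasurable _ _ h)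
      exact (hL _ _).trans (mul_le_mul_of_nonneg_left h1 hL0)
  have hi : Integrable (fun ω => L * r + B.indicator (fun _ => 2 * M) ω) P :=
    (integrable_const _).add ((integrable_const _).indicator hBm)
  have h1 := norm_integral_le_of_norm_le hi (Eventually.of_forall hbound)
  have h2 : ∫ ω, (L * r + B.indicator (fun _ => 2 * M) ω) ∂P = L * r + 2 * M * P.real B0 := by
    rw [integral_add (integrable_const _) ((integrable_const _).indicator hBm),
      integral_indicator_const _ hBm, hBr]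
    simp only [integral_const, probReal_univ, smul_eq_mul, one_mul]
    ring
  rw [h2] at h1
  exact h1

/-- **convergence together** -/
theorem together {Ω : ℕ → Type*} {mΩ : ∀ m, MeasurableSpace (Ω m)} {P : ∀ m, Measure (Ω m)}
    [∀ m, IsProbabilityMeasure (P m)] {Y : ∀ m, Ω m → X} (hY : ∀ m, AEMeasurable (Y m) (P m))
    {Z : ℕ → ∀ m, Ω m → X} (hZ : ∀ T m, AEMeasurable (Z T m) (P m))
    {νT : ℕ → ProbabilityMeasure X} {ν : ProbabilityMeasure X}
    {ρ : ℕ → ℕ → ProbabilityMeasure X}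
    (hρ : ∀ T m, (ρ T m : Measure X) = (P m).map (Z T m))
    (h1 : ∀ T, Tendsto (ρ T) atTop (𝓝 (νT T))) (h2 : Tendsto νT atTop (𝓝 ν))
    (h3 : ∀ r > 0, ∀ ε > 0, ∃ T0, ∀ T ≥ T0, ∀ᶠ m in atTop,
      (P m).real {ω | r < dist (Y m ω) (Z T m ω)} ≤ ε)
    {μs : ℕ → ProbabilityMeasure X} (hμ : ∀ m, (μs m : Measure X) = (P m).map (Y m)) :
    Tendsto μs atTop (𝓝 ν) := by
  rw [tendsto_iff_forall_lipschitz_integral_tendsto] at h2 ⊢
  intro f hb hl
  have h2f := h2 f hb hl
  obtain ⟨C, hC⟩ := hb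
  obtain ⟨L, hL⟩ := hl
  have hfc : Continuous f := hL.continuous
  have hLe : ∀ x y, |f x - f y| ≤ (L : ℝ) * dist x y := fun x y => by
    rw [← Real.dist_eq]; exact hL.dist_le_mul x y
  by_cases hne : Nonempty X
  swap
  · rw [not_nonempty_iff] at hne
    have : ∀ g : X → ℝ, ∀ μ : Measure X, ∫ x, g x ∂μ = 0 := by
      intro g μ
      rw [Measure.eq_zero_of_isEmpty μ, integral_zero_measure]
    simp only [this]
    exact tendsto_const_nhds
  obtain ⟨x0⟩ := hne
  set M : ℝ := |f x0| + C with hM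
  have hC0 : 0 ≤ C := dist_nonneg.trans (hC x0 x0)
  have hM0 : 0 ≤ M := add_nonneg (abs_nonneg _) hC0
  have hMf : ∀ x, |f x| ≤ M := by
    intro x
    have := hC x x0
    rw [Real.dist_eq] at this
    calc |f x| = |f x0 + (f x - f x0)| := by ring_nf
      _ ≤ |f x0| + |f x - f x0| := abs_add_le _ _
      _ ≤ _ := by linarith
  have e1 : ∀ m, ∫ x, f x ∂(μs m : Measure X) = ∫ ω, f (Y m ω) ∂(P m) := by
    intro m
    rw [hμ m, integral_map (hY m) hfc.aestronglyMeasurable]
  have e2 : ∀ T m, ∫ x, f x ∂(ρ T m : Measure X) = ∫ ω, f (Z T m ω) ∂(P m) := by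
    intro T m
    rw [hρ T m, integral_map (hZ T m) hfc.aestronglyMeasurable]
  rw [Metric.tendsto_atTop] at h2f ⊢
  intro ε hε
  obtain ⟨T1, hT1⟩ := h2f (ε / 4) (by linarith)
  have hL1 : (0 : ℝ) < L + 1 := by positivity
  obtain ⟨T0, hT0⟩ := h3 (ε / (4 * (L + 1))) (by positivity) (ε / (8 * (M + 1))) (by positivity)
  set T := max T0 T1 with hT
  have h4 := hT0 T (le_max_left _ _)
  have h5 := h1 T
  rw [tendsto_iff_forall_lipschitz_integral_tendsto] at h5
  have h5f := h5 f ⟨C, hC⟩ ⟨L, hL⟩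
  rw [Metric.tendsto_atTop] at h5f
  obtain ⟨m1, hm1⟩ := h5f (ε / 4) (by linarith)
  obtain ⟨m2, hm2⟩ := eventually_atTop.1 h4
  refine ⟨max m1 m2, fun m hm => ?_⟩
  have a1 := hm1 m ((le_max_left _ _).trans hm)
  have a2 := hm2 m ((le_max_right _ _).trans hm)
  have a3 := hT1 T (le_max_right _ _)
  have a4 := integral_close (P := P m) (hY m) (hZ T m) hfc.measurable (NNReal.coe_nonneg L) hLe hMf
    (show 0 ≤ ε / (4 * (L + 1)) by positivity)
  rw [Real.dist_eq] at a1 a3 ⊢
  rw [e2] at a1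
  rw [e1]
  have b1 : (L : ℝ) * (ε / (4 * (L + 1))) ≤ ε / 4 := by
    have : (L : ℝ) * (ε / (4 * (L + 1))) ≤ (L + 1) * (ε / (4 * (L + 1))) := by gcongr; linarith
    have h6 : ((L : ℝ) + 1) * (ε / (4 * (L + 1))) = ε / 4 := by field_simp
    linarith
  have b2 : 2 * M * (P m).real {ω | ε / (4 * (L + 1)) < dist (Y m ω) (Z T m ω)} ≤ ε / 4 := by
    calc _ ≤ 2 * (M + 1) * (ε / (8 * (M + 1))) := by
          have : 0 ≤ (P m).real {ω | ε / (4 * (L + 1)) < dist (Y m ω) (Z T m ω)} :=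
            measureReal_nonneg
          gcongr
          linarith
      _ = ε / 4 := by field_simp; ring
  have key : ∫ ω, f (Y m ω) ∂(P m) - ∫ x, f x ∂(ν : Measure X)
      = (∫ ω, f (Y m ω) ∂(P m) - ∫ ω, f (Z T m ω) ∂(P m))
        + (∫ ω, f (Z T m ω) ∂(P m) - ∫ x, f x ∂(νT T : Measure X))
        + (∫ x, f x ∂(νT T : Measure X) - ∫ x, f x ∂(ν : Measure X)) := by ring
  rw [key]
  have c1 := abs_add_le ((∫ ω, f (Y m ω) ∂(P m) - ∫ ω, f (Z T m ω) ∂(P m))
        + (∫ ω, f (Z T m ω) ∂(P m) - ∫ x, f x ∂(νT T : Measure X)))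
        (∫ x, f x ∂(νT T : Measure X) - ∫ x, f x ∂(ν : Measure X))
  have c2 := abs_add_le (∫ ω, f (Y m ω) ∂(P m) - ∫ ω, f (Z T m ω) ∂(P m))
        (∫ ω, f (Z T m ω) ∂(P m) - ∫ x, f x ∂(νT T : Measure X))
  linarith

/-- convergence in law from convergence almost everywhere on one space -/
theorem tendsto_of_ae {Ω : Type*} {mΩ : MeasurableSpace Ω} {P : Measure Ω}
    [IsProbabilityMeasure P] {Z : ℕ → Ω → X} {Z0 : Ω → X} (hZ : ∀ T, AEMeasurable (Z T) P)
    (hZ0 : AEMeasurable Z0 P) (h : ∀ᵐ ω ∂P, Tendsto (fun T => Z T ω) atTop (𝓝 (Z0 ω)))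
    {νT : ℕ → ProbabilityMeasure X} {ν : ProbabilityMeasure X}
    (hνT : ∀ T, (νT T : Measure X) = P.map (Z T)) (hν : (ν : Measure X) = P.map Z0) :
    Tendsto νT atTop (𝓝 ν) := by
  rw [ProbabilityMeasure.tendsto_iff_forall_integral_tendsto]
  intro f
  have e1 : ∀ T, ∫ x, f x ∂(νT T : Measure X) = ∫ ω, f (Z T ω) ∂P := by
    intro T
    rw [hνT T, integral_map (hZ T) f.continuous.aestronglyMeasurable]
  have e2 : ∫ x, f x ∂(ν : Measure X) = ∫ ω, f (Z0 ω) ∂P := by
    rw [hν, integral_map hZ0 f.continuous.aestronglyMeasurable]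
  simp only [e1]
  rw [e2]
  refine tendsto_integral_of_dominated_convergence (fun _ => ‖f‖) ?_ (integrable_const _) ?_ ?_
  · exact fun T => (f.continuous.measurable.comp_aemeasurable (hZ T)).aestronglyMeasurable
  · exact fun T => Eventually.of_forall fun ω => f.norm_coe_le_norm _
  · filter_upwards [h] with ω hω
    exact (f.continuous.tendsto _).comp hω

end H37.M7
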